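import Pool.Agent.helper60.DA.SpecV

/-!
# Row dv:E2 (MP_fb2c2a_nt): the value of the correction polynomial at 2
-/

set_option autoImplicit false

namespace Pool.Agent.helper60.DA

open Polynomial Finset Pool.Agent.helper60.DK

theorem E2_aux1 (h : ℕ) (t : ℕ → ℤ) : (Hh h t).natDegree ≤ 3 * h := by
  unfold Hh
  refine natDegree_sum_le_of_forall_le _ _ ?_
  intro k hk
  rw [mem_range] at hk
  refine (natDegree_C_mul_le _ _).trans ?_
  refine (natDegree_mul_le).trans ?_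
  have h1 : (X ^ (2 * k) : ℤ[X]).natDegree ≤ 2 * k := natDegree_X_pow_le _
  have h2 : ((1 + X : ℤ[X]) ^ (3 * (h - k))).natDegree ≤ 3 * (h - k) := by
    refine (natDegree_pow_le).trans ?_
    have h3 : (1 + X : ℤ[X]).natDegree ≤ 1 := by
      refine (natDegree_add_le _ _).trans ?_
      simp
    calc 3 * (h - k) * (1 + X : ℤ[X]).natDegree ≤ 3 * (h - k) * 1 := Nat.mul_le_mul_left _ h3
      _ = 3 * (h - k) := mul_one _
  omega

theorem E2_aux2 (p : ℕ) : (St p).natDegree ≤ 3 * hh p := by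
  unfold St
  refine natDegree_sum_le_of_forall_le _ _ ?_
  intro i hi
  rw [mem_range] at hi
  refine (natDegree_C_mul_X_pow_le _ _).trans ?_
  omega

theorem E2_aux3 (p : ℕ) [hp : Fact p.Prime] (V : ℤ[X]) (hV : IsV p V) :
    (red p V).natDegree ≤ 3 * hh p := by
  refine (natDegree_map_le).trans ?_
  have hp0 : (p : ℤ) ≠ 0 := by exact_mod_cast hp.out.ne_zero
  have h1 : (C (p : ℤ) * V).natDegree = V.natDegree := natDegree_C_mul hp0
  have h2 : C (p : ℤ) * V = C ((16 : ℤ) ^ hh p) * St p - S1 p := by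
    unfold IsV at hV
    rw [hV]
    ring
  rw [← h1, h2]
  refine (natDegree_sub_le _ _).trans (max_le ?_ ?_)
  · exact (natDegree_C_mul_le _ _).trans (E2_aux2 p)
  · unfold S1
    exact E2_aux1 _ _

theorem E2_aux4 (p : ℕ) [hp : Fact p.Prime] : (Wp p).natDegree ≤ 3 * hh p := by
  unfold Wp ff
  refine natDegree_sum_le_of_forall_le _ _ ?_
  intro k hk
  rw [mem_range] at hk
  refine (natDegree_C_mul_le _ _).trans ?_
  refine (natDegree_mul_le).trans ?_
  have h1 : (X ^ (2 * k) : (ZMod p)[X]).natDegree ≤ 2 * k := natDegree_X_pow_le _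
  have h2 : ((1 + X : (ZMod p)[X]) ^ (3 * (hh p - k))).natDegree ≤ 3 * (hh p - k) := by
    refine (natDegree_pow_le).trans ?_
    have h3 : (1 + X : (ZMod p)[X]).natDegree ≤ 1 := by
      refine (natDegree_add_le _ _).trans ?_
      simp
    calc 3 * (hh p - k) * (1 + X : (ZMod p)[X]).natDegree ≤ 3 * (hh p - k) * 1 :=
          Nat.mul_le_mul_left _ h3
      _ = 3 * (hh p - k) := mul_one _
  have h3 : nn p ≤ hh p := by
    unfold nn hh
    have := hp.out.two_le
    omega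
  omega

theorem E2_aux5 (p : ℕ) [hp : Fact p.Prime] (F : Type) [Field F] [Algebra (ZMod p) F] (s : F)
    (hs : s ^ 2 = 3) (d : ℕ) (f : (ZMod p)[X]) (hf : f.natDegree ≤ d) :
    aeval s (hm d f) = algebraMap (ZMod p) F (f.eval 2) := by
  have h1 : s ^ 2 - 1 = 2 := by rw [hs]; norm_num
  have h2 : 4 - s ^ 2 = 1 := by rw [hs]; norm_num
  unfold hm
  rw [eval_eq_sum_range' (Nat.lt_succ_of_le hf) 2, map_sum, map_sum]
  refine sum_congr rfl fun i _ => ?_
  rw [map_mul, map_mul, map_mul, aeval_C, map_pow, map_pow, map_pow, map_sub, map_sub, map_pow, aeval_X,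
    map_one, map_ofNat, map_ofNat, h1, h2, one_pow, mul_one]

theorem E2 (hS : STAR_stmt) (hW : HW_stmt) (hK : K2_stmt) (hR : RT3_stmt) : E2_stmt := by
  intro p hp h7 h31 V hV
  have h5 : 5 ≤ p := by omega
  set F := AlgebraicClosure (ZMod p) with hF
  set ι := algebraMap (ZMod p) F with hι
  have hιinj : Function.Injective ι := ι.injective
  obtain ⟨s, hs⟩ : ∃ s : F, s ^ 2 = 3 := IsAlgClosed.exists_pow_nat_eq (3 : F) (by norm_num)
  have h2 : (2 : ZMod p) ≠ 0 := two_ne h5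
  have h2F : (2 : F) ≠ 0 := by
    intro h
    apply h2
    apply hιinj
    rw [map_ofNat, map_zero]
    exact h
  -- `z = s ^ p`
  set z : F := s ^ p with hz
  have hz2 : z ^ 2 = 3 := by
    rw [hz, ← pow_mul, mul_comm, pow_mul, hs]
    have h3 : ((3 : ZMod p)) ^ p = 3 := ZMod.pow_card 3
    have h4 : ι ((3 : ZMod p) ^ p) = ι 3 := by rw [h3]
    rwa [map_pow, map_ofNat] at h4
  have hz1 : 1 + z ≠ 0 := by
    intro h
    apply h2F
    linear_combination (z - 1) * h - hz2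
  -- value of `y`
  have hy : aeval s (ys p) = ι (-1 / 2) := by
    unfold ys
    rw [map_mul, aeval_C, map_mul, map_pow, map_sub, map_add, aeval_X, map_one, map_ofNat]
    have h3 : (s - 1) ^ 2 * (s + 2) = 2 := by
      linear_combination s * hs
    have h4 : (-1 / 2 : ZMod p) = (-1 / 4) * 2 := by
      have h6 : (4 : ZMod p) ≠ 0 := by
        rw [show (4 : ZMod p) = 2 * 2 by norm_num]
        exact mul_ne_zero h2 h2
      field_simp
      norm_num
    rw [h3, h4, map_mul, map_ofNat]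
  set D : F := ι ((red p (Dz (nn p))).eval (-1 / 2)) with hD
  have hDs : aeval s (Ds p) = D := by
    unfold Ds
    rw [aeval_comp, hy, aeval_algebraMap_apply, coe_aeval_eq_eval]
  have hKs : aeval s (Ks p) = -(ι (Q2 p)) * D := by
    unfold Ks
    rw [aeval_comp, hy, aeval_algebraMap_apply, coe_aeval_eq_eval, (hK p h5).2.2 h31, map_mul, map_neg]
  set K : F := ι (3 ^ (3 * hh p)) with hKdef
  have hWv : ι ((Wp p).eval 2) = K * D ^ 2 := by
    rw [← E2_aux5 p F s hs (3 * hh p) (Wp p) (E2_aux4 p), hW p h5, map_mul, aeval_C,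
      map_pow (aeval s) (Ds p) 2, hDs]
  set v2 : F := ι ((red p V).eval 2) with hv2
  have hV2 : aeval s (hm (3 * hh p) (red p V)) = v2 :=
    E2_aux5 p F s hs (3 * hh p) (red p V) (E2_aux3 p V hV)
  set t : F := ι (1 / 2) with ht
  have ht2 : 2 * t = 1 := by
    have h3 : (2 : ZMod p) * (1 / 2) = 1 := by field_simp
    have h4 : ι ((2 : ZMod p) * (1 / 2)) = ι 1 := by rw [h3]
    rwa [map_mul, map_ofNat, map_one] at h4
  have ht3 : ι (3 / 2) = 3 * t := by
    rw [show (3 / 2 : ZMod p) = 3 * (1 / 2) by ring, map_mul, map_ofNat]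
  set q2 : F := ι (Q2 p) with hq2
  set q3 : F := ι (Q3 p) with hq3
  obtain ⟨hR1, hR2⟩ := hR p F h5 s hs
  rw [← hz] at hR1 hR2
  set P1 : F := ph p s (-2) with hP1
  set P2 : F := ph p s 1 with hP2
  set P3 : F := ph p s 2 with hP3
  have hr : algebraMap (ZMod p) F (8 * Q2 p - 3 * Q3 p) = 8 * q2 - 3 * q3 := by
    rw [map_sub, map_mul, map_mul, map_ofNat, map_ofNat]
  have hr2 : algebraMap (ZMod p) F (2 * Q2 p) = 2 * q2 := by
    rw [map_mul, map_ofNat]
  rw [hr] at hR1 hR2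
  rw [hr2] at hR2
  -- evaluate STAR
  have hE := congrArg (aeval s) (hS p h7 h31 V hV)
  have e1 : aeval s (ph p (X : (ZMod p)[X]) (-2)) = P1 := by
    have h3 := map_ph (p := p) ((aeval s : (ZMod p)[X] →ₐ[ZMod p] F) : (ZMod p)[X] →+* F) X (-2)
    rw [RingHom.coe_coe, aeval_X, map_neg, map_ofNat] at h3
    exact h3
  have e2 : aeval s (ph p (X : (ZMod p)[X]) 1) = P2 := by
    have h3 := map_ph (p := p) ((aeval s : (ZMod p)[X] →ₐ[ZMod p] F) : (ZMod p)[X] →+* F) X 1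
    rw [RingHom.coe_coe, aeval_X, map_one] at h3
    exact h3
  have e3 : aeval s (ph p (X : (ZMod p)[X]) 2) = P3 := by
    have h3 := map_ph (p := p) ((aeval s : (ZMod p)[X] →ₐ[ZMod p] F) : (ZMod p)[X] →+* F) X 2
    rw [RingHom.coe_coe, aeval_X, map_ofNat] at h3
    exact h3
  have eL : aeval s (Gm p (red p V)) = (z + 2) * (z - 1) * v2
      - K * (z * (z + 1) * ((-q2 * D) * D)
        + D ^ 2 * (t * (z + 3) * P1 - 2 * z * P2 + 3 * t * (z - 1) * P3)) := by
    unfold Gm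
    simp only [map_sub, map_mul, map_add, map_pow, aeval_X, map_ofNat, map_one, aeval_C, e1, e2, e3,
      hDs, hKs, hV2]
    rw [← hι, ht3, ← ht, ← hz]
    have h3 : (ι 3) ^ (3 * hh p) = K := by rw [hKdef, map_pow]
    rw [map_ofNat] at h3
    rw [h3]
  have eR : aeval s (C (3 ^ (3 * hh p)) * (C (-6 * Q2 p + 3 * Q3 p)
    + C (4 * Q2 p - 3 / 2 * Q3 p) * X ^ p + C (2 * Q2 p - 3 / 2 * Q3 p) * X ^ (2 * p)) * Ds p ^ 2)
      = K * ((-6 * q2 + 3 * q3) + (4 * q2 - 3 * t * q3) * z + (2 * q2 - 3 * t * q3) * z ^ 2) * D ^ 2 := by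
    rw [map_mul, map_mul, map_add, map_add, map_mul, map_mul, map_pow (aeval s) (Ds p) 2,
      map_pow (aeval s) X p, map_pow (aeval s) X (2 * p), aeval_C, aeval_C,
      aeval_C, aeval_C, aeval_X, hDs, ← hι, ← hKdef]
    have h4 : s ^ (2 * p) = z ^ 2 := by rw [hz, ← pow_mul, mul_comm]
    have h6 : ι (-6 * Q2 p + 3 * Q3 p) = -6 * q2 + 3 * q3 := by
      rw [map_add, map_mul, map_mul, map_neg, map_ofNat, map_ofNat]
    have h8 : ι (4 * Q2 p - 3 / 2 * Q3 p) = 4 * q2 - 3 * t * q3 := by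
      rw [map_sub, map_mul, map_mul, ht3, map_ofNat]
    have h9 : ι (2 * Q2 p - 3 / 2 * Q3 p) = 2 * q2 - 3 * t * q3 := by
      rw [map_sub, map_mul, map_mul, ht3, map_ofNat]
    rw [h4, h6, h8, h9, ← hz]
  rw [eL, eR] at hE
  -- conclusion
  have hfin : 2 * ((1 + z) * (v2 + 3 * t * q3 * K * D ^ 2)) = 0 := by
    linear_combination 2 * hE + K * D ^ 2 * (3 - z) * hR1 - K * D ^ 2 * (3 - z) * hR2
      + (-2 * v2 + K * D ^ 2 * (P1 - 2 * P2 + P3 + 4 * q2 - 3 * q3)) * hz2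
      + K * D ^ 2 * ((z + 3) * P1 + 3 * (z - 1) * P3 + (1 + z) * 3 * q3 - 3 * q3 * z - 3 * q3 * z ^ 2) * ht2
  have hfin2 : v2 + 3 * t * q3 * K * D ^ 2 = 0 := by
    have h3 := mul_ne_zero h2F hz1
    rw [← mul_assoc] at hfin
    exact (mul_eq_zero.mp hfin).resolve_left h3
  apply hιinj
  rw [← hv2, map_mul, hWv, map_mul, map_neg, ht3, ← hq3]
  linear_combination hfin2

end Pool.Agent.helper60.DA
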